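import Pool.Agent.H39R3.PS.Defs

set_option autoImplicit false

namespace Pool.Agent.H671V.Fiv

open Finset Filter Topology Pool.Agent.H39R3.PB Pool.Agent.H39R3.PS
open Pool.Agent.H476R2.Pal (PZ VZ sift rem Rem)

lemma pv_cop {b L : ℕ} (hL : 1 ≤ L) (m : Fin L → Fin b) : (pv b L m).Coprime b := by
  have h1 : b ∣ b ^ (2 * L) := dvd_pow_self _ (by omega)
  have h2 : b ∣ ∑ c : Fin L, (m c : ℕ) * fr b L c := by
    refine Finset.dvd_sum fun c _ => Dvd.dvd.mul_left ?_ _
    unfold fr
    split_ifs with h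
    · exact dvd_pow_self _ (by omega)
    · have := c.2
      exact dvd_add (dvd_pow_self _ (by omega)) (dvd_pow_self _ (by omega))
  obtain ⟨k, hk⟩ := dvd_add h1 h2
  have h3 : pv b L m = b * k + 1 := by unfold pv; omega
  rw [h3]
  exact Nat.isCoprime_iff_coprime.1 ⟨1, -k, by push_cast; ring⟩

lemma cop_iff {b L : ℕ} (hL : 1 ≤ L) (h2 : 2 ∣ b) (m : Fin L → Fin b) :
    (pv b L m).Coprime 10 ↔ ¬ 5 ∣ pv b L m := by
  have hodd : (pv b L m).Coprime 2 := Nat.Coprime.coprime_dvd_right h2 (pv_cop hL m)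
  rw [show (10 : ℕ) = 2 * 5 from rfl, Nat.coprime_mul_iff_right]
  constructor
  · rintro ⟨_, h⟩ h5
    have := Nat.Coprime.eq_one_of_dvd h.symm h5
    omega
  · intro h
    exact ⟨hodd, ((Nat.Prime.coprime_iff_not_dvd (by norm_num)).2 h).symm⟩

theorem taskFiv : TaskFiv := by
  intro b hb h2 hBV A
  have hBV' := hBV (1 / 800) (by norm_num) (A + 1)
  filter_upwards [hBV', eventually_ge_atTop 1600] with L hL hL0
  specialize hL (fun _ => 0)
  have hbR : (4 : ℝ) ≤ b := by exact_mod_cast hb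
  have hb0 : (0 : ℝ) < b := by linarith
  have hLR : (1600 : ℝ) ≤ L := by exact_mod_cast hL0
  set f : ℕ → ℝ := fun q => (q.divisors.card : ℝ) ^ 2 * |cnt b L q 0 - (b : ℝ) ^ L / q| with hf
  set T := (Icc 1 ⌊(b : ℝ) ^ ((1 / 2 - 1 / 800 : ℝ) * L)⌋₊).filter (fun q => q.Coprime (2 * b))
    with hTdef
  set S := (Icc 1 ⌊Db b L⌋₊).filter (fun q => q.Coprime (10 * b)) with hSdef
  have hT : ∑ q ∈ T, f q ≤ (b : ℝ) ^ L / (L : ℝ) ^ (A + 1) := hL
  have hf0 : ∀ q, 0 ≤ f q := fun q => by positivity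
  have hDb0 : 0 < Db b L := by unfold Db; positivity
  have hDb : 5 * Db b L ≤ (b : ℝ) ^ ((1 / 2 - 1 / 800 : ℝ) * L) := by
    have h5 : (5 : ℝ) ≤ (b : ℝ) ^ ((L : ℝ) / 800) := by
      calc (5 : ℝ) ≤ (4 : ℝ) ^ (2 : ℝ) := by norm_num
        _ ≤ (b : ℝ) ^ (2 : ℝ) := Real.rpow_le_rpow (by norm_num) hbR (by norm_num)
        _ ≤ (b : ℝ) ^ ((L : ℝ) / 800) :=
          Real.rpow_le_rpow_of_exponent_le (by linarith) (by linarith)
    unfold Db
    calc 5 * (b : ℝ) ^ ((1 / 2 - 1 / 400 : ℝ) * L)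
        ≤ (b : ℝ) ^ ((L : ℝ) / 800) * (b : ℝ) ^ ((1 / 2 - 1 / 400 : ℝ) * L) := by gcongr
      _ ≤ (b : ℝ) ^ ((1 / 2 - 1 / 800 : ℝ) * L) := by
          rw [← Real.rpow_add hb0]
          refine Real.rpow_le_rpow_of_exponent_le (by linarith) ?_
          linarith
  have hcop : ∀ q : ℕ, q.Coprime (10 * b) → q.Coprime (2 * b) ∧ q.Coprime 5 := by
    intro q hq
    have h10 : q.Coprime 10 := Nat.Coprime.coprime_mul_right_right hq
    have hqb : q.Coprime b := Nat.Coprime.coprime_mul_left_right hq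
    have h5 : q.Coprime 5 := Nat.Coprime.coprime_dvd_right (by norm_num) h10
    have h22 : q.Coprime 2 := Nat.Coprime.coprime_dvd_right (by norm_num) h10
    exact ⟨Nat.Coprime.mul_right h22 hqb, h5⟩
  have hsub : S ⊆ T := by
    intro q hq
    rw [hSdef, mem_filter, mem_Icc] at hq
    rw [hTdef, mem_filter, mem_Icc]
    refine ⟨⟨hq.1.1, hq.1.2.trans (Nat.floor_le_floor ?_)⟩, (hcop q hq.2).1⟩
    linarith
  have hsum1 : ∑ q ∈ S, f q ≤ ∑ q ∈ T, f q :=
    sum_le_sum_of_subset_of_nonneg hsub fun q _ _ => hf0 q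
  have hfin : 2 * ((b : ℝ) ^ L / (L : ℝ) ^ (A + 1)) ≤ (b : ℝ) ^ L / (L : ℝ) ^ A := by
    have hLp : (0 : ℝ) < (L : ℝ) ^ A := by positivity
    rw [pow_succ, ← div_div, mul_div_assoc']
    rw [div_le_iff₀ (by linarith)]
    have : 0 ≤ (b : ℝ) ^ L / (L : ℝ) ^ A := by positivity
    nlinarith
  have hnn : 0 ≤ (b : ℝ) ^ L / (L : ℝ) ^ (A + 1) := by positivity
  have hcnt : ∀ q : ℕ, cnt b L q 0 =
      ((univ : Finset (Fin L → Fin b)).filter (fun m => q ∣ pv b L m)).card := by
    intro q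
    unfold cnt
    congr 2
    ext m
    simp only [mem_filter, mem_univ, true_and]
    exact Nat.modEq_zero_iff_dvd
  by_cases h5 : 5 ∣ b
  · -- all palindromes are prime to ten
    have hS1 : S1 b L = univ := by
      unfold S1
      rw [filter_eq_self]
      intro m _
      rw [cop_iff (by omega) h2]
      intro h
      have h1 := Nat.Coprime.coprime_dvd_right h5 (pv_cop (by omega : 1 ≤ L) m)
      have := Nat.Coprime.eq_one_of_dvd h1.symm h
      omega
    have hterm : ∀ q ∈ S, (q.divisors.card : ℝ) ^ 2 *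
        |rem (S1 b L) (pv b L) (dn b * (b : ℝ) ^ L) q| = f q := by
      intro q _
      simp only [hf]
      rw [hcnt]
      unfold rem dn
      rw [hS1, if_pos h5, one_mul]
    rw [sum_congr rfl hterm]
    linarith
  · have hsum5 : ∑ q ∈ S, f (5 * q) ≤ ∑ q ∈ T, f q := by
      have hinj : Set.InjOn (fun q : ℕ => 5 * q) (S : Set ℕ) := fun x _ y _ h => by
        simpa using h
      rw [← sum_image (f := f) (g := fun q : ℕ => 5 * q) hinj]
      refine sum_le_sum_of_subset_of_nonneg ?_ fun q _ _ => hf0 q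
      intro n hn
      obtain ⟨q, hq, rfl⟩ := mem_image.1 hn
      rw [hSdef, mem_filter, mem_Icc] at hq
      rw [hTdef, mem_filter, mem_Icc]
      have h55 : Nat.Coprime 5 (2 * b) :=
        Nat.Coprime.mul_right (by norm_num) ((Nat.Prime.coprime_iff_not_dvd (by norm_num)).2 h5)
      refine ⟨⟨by omega, Nat.le_floor ?_⟩, Nat.Coprime.mul_left h55 (hcop q hq.2).1⟩
      have h1 : (q : ℝ) ≤ Db b L := (Nat.le_floor_iff hDb0.le).1 hq.1.2
      push_cast
      linarith
    have hterm : ∀ q ∈ S, (q.divisors.card : ℝ) ^ 2 *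
        |rem (S1 b L) (pv b L) (dn b * (b : ℝ) ^ L) q| ≤ f q + f (5 * q) := by
      intro q hq
      rw [hSdef, mem_filter, mem_Icc] at hq
      have hq0 : (0 : ℝ) < q := by exact_mod_cast hq.1.1
      have hc5 : q.Coprime 5 := (hcop q hq.2).2
      have hsplit : (((S1 b L).filter (fun m => q ∣ pv b L m)).card : ℝ) =
          cnt b L q 0 - cnt b L (5 * q) 0 := by
        rw [hcnt, hcnt]
        have hd : ((univ : Finset (Fin L → Fin b)).filter (fun m => q ∣ pv b L m)).card =
            ((S1 b L).filter (fun m => q ∣ pv b L m)).card +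
            ((univ : Finset (Fin L → Fin b)).filter (fun m => 5 * q ∣ pv b L m)).card := by
          rw [← card_union_of_disjoint]
          · congr 1
            ext m
            simp only [S1, mem_filter, mem_univ, true_and, mem_union]
            rw [cop_iff (by omega) h2]
            constructor
            · intro h
              by_cases hm : 5 ∣ pv b L m
              · exact Or.inr (Nat.Coprime.mul_dvd_of_dvd_of_dvd hc5.symm hm h)
              · exact Or.inl ⟨hm, h⟩
            · rintro (h | h)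
              · exact h.2
              · exact (Dvd.intro_left 5 rfl).trans h
          · rw [disjoint_left]
            intro m hm hm'
            simp only [S1, mem_filter, mem_univ, true_and] at hm hm'
            rw [cop_iff (by omega) h2] at hm
            exact hm.1 ((Dvd.intro q rfl).trans hm')
        rw [hd]
        push_cast
        ring
      have hrem : rem (S1 b L) (pv b L) (dn b * (b : ℝ) ^ L) q =
          (cnt b L q 0 - (b : ℝ) ^ L / q) - (cnt b L (5 * q) 0 - (b : ℝ) ^ L / ((5 * q : ℕ) : ℝ)) := by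
        unfold rem dn
        rw [hsplit, if_neg h5]
        push_cast
        field_simp
        ring
      rw [hrem]
      have hcard : (q.divisors.card : ℝ) ≤ ((5 * q).divisors.card : ℝ) := by
        exact_mod_cast card_le_card (Nat.divisors_subset_of_dvd (by omega) (Dvd.intro_left 5 rfl))
      calc (q.divisors.card : ℝ) ^ 2 * |(cnt b L q 0 - (b : ℝ) ^ L / q) -
            (cnt b L (5 * q) 0 - (b : ℝ) ^ L / ((5 * q : ℕ) : ℝ))|
          ≤ (q.divisors.card : ℝ) ^ 2 * (|cnt b L q 0 - (b : ℝ) ^ L / q| +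
            |cnt b L (5 * q) 0 - (b : ℝ) ^ L / ((5 * q : ℕ) : ℝ)|) := by
            gcongr
            exact abs_sub _ _
        _ = (q.divisors.card : ℝ) ^ 2 * |cnt b L q 0 - (b : ℝ) ^ L / q| +
            (q.divisors.card : ℝ) ^ 2 * |cnt b L (5 * q) 0 - (b : ℝ) ^ L / ((5 * q : ℕ) : ℝ)| := by
            ring
        _ ≤ f q + f (5 * q) := by
            simp only [hf]
            gcongr
    calc _ ≤ ∑ q ∈ S, (f q + f (5 * q)) := sum_le_sum hterm
      _ = ∑ q ∈ S, f q + ∑ q ∈ S, f (5 * q) := sum_add_distrib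
      _ ≤ 2 * ((b : ℝ) ^ L / (L : ℝ) ^ (A + 1)) := by linarith
      _ ≤ _ := hfin

end Pool.Agent.H671V.Fiv
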